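import Mathlib

/-!
A Chebyshev center which is no minimiser of a regularization functional, in the real plane with one
observation.

`K = {x^2 + 4 y^2 ≤ 68, |10 - (2 x - y)| ≤ 10}`. The points `A = (-2, -4)` and `B = (8, 1)` of `K`
have distance `2 R`, `R^2 = 125 / 4`, and `K` lies in the ball of radius `R` about their midpoint
`z = (3, -3/2)`, because
`R^2 - |f - z|^2 = 5/17 (68 - x^2 - 4 y^2) + 3/34 (68 - 8 x - 4 y) (x - y/2)`.
-/

set_option autoImplicit false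

namespace Pool.Agent.Results.MP_ef9ba3_an.CenterNoRegularizer

/-- the set `K_{y,E}` of the elements of the model set `‖P f‖ ≤ ε` which are consistent with the
data: `‖y - Λ f‖ ≤ η` -/
def consistent {H : Type*} [NormedAddCommGroup H] [InnerProductSpace ℝ H] {m : ℕ}
    (P : H →ₗ[ℝ] H) (Λ : H →ₗ[ℝ] EuclideanSpace ℝ (Fin m)) (ε η : ℝ)
    (y : EuclideanSpace ℝ (Fin m)) : Set H :=
  {f | ‖P f‖ ≤ ε ∧ ‖y - Λ f‖ ≤ η}

/-- the largest distance of the point `z` to the points of `K` -/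
noncomputable def radius {H : Type*} [NormedAddCommGroup H] (K : Set H) (z : H) : ℝ :=
  sSup ((fun f => ‖f - z‖) '' K)

/-- `z` is a Chebyshev center of `K` -/
def IsChebyshevCenter {H : Type*} [NormedAddCommGroup H] (K : Set H) (z : H) : Prop :=
  ∀ z' : H, radius K z ≤ radius K z'

/-- the regularization functional `F_τ(f) = (1 - τ) ‖P f‖ ^ 2 + τ ‖y - Λ f‖ ^ 2` -/
noncomputable def F {H : Type*} [NormedAddCommGroup H] [InnerProductSpace ℝ H] {m : ℕ}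
    (P : H →ₗ[ℝ] H) (Λ : H →ₗ[ℝ] EuclideanSpace ℝ (Fin m)) (y : EuclideanSpace ℝ (Fin m))
    (τ : ℝ) (f : H) : ℝ :=
  (1 - τ) * ‖P f‖ ^ 2 + τ * ‖y - Λ f‖ ^ 2

/-- the operator `(x, y) ↦ (x, 2 y)` -/
noncomputable def P0 : EuclideanSpace ℝ (Fin 2) →ₗ[ℝ] EuclideanSpace ℝ (Fin 2) :=
  Matrix.toEuclideanLin !![1, 0; 0, 2]

/-- the observation `(x, y) ↦ 2 x - y` -/
noncomputable def L0 : EuclideanSpace ℝ (Fin 2) →ₗ[ℝ] EuclideanSpace ℝ (Fin 1) :=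
  Matrix.toEuclideanLin !![2, -1]

/-- the datum -/
noncomputable def y0 : EuclideanSpace ℝ (Fin 1) := !₂[10]

theorem P0_sq (f : EuclideanSpace ℝ (Fin 2)) : ‖P0 f‖ ^ 2 = f 0 ^ 2 + 4 * f 1 ^ 2 := by
  rw [EuclideanSpace.norm_sq_eq]
  simp [P0, Matrix.toEuclideanLin, Matrix.mulVec, dotProduct, Fin.sum_univ_two]
  ring

theorem L0_sq (f : EuclideanSpace ℝ (Fin 2)) : ‖y0 - L0 f‖ ^ 2 = (10 - (2 * f 0 - f 1)) ^ 2 := by
  rw [EuclideanSpace.norm_sq_eq]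
  simp [L0, y0, Matrix.toEuclideanLin, Matrix.mulVec, dotProduct, Fin.sum_univ_two]
  ring

theorem dist_sq (f g : EuclideanSpace ℝ (Fin 2)) :
    ‖f - g‖ ^ 2 = (f 0 - g 0) ^ 2 + (f 1 - g 1) ^ 2 := by
  rw [EuclideanSpace.norm_sq_eq]
  simp [Fin.sum_univ_two]

/-- the consistent set -/
noncomputable def K0 : Set (EuclideanSpace ℝ (Fin 2)) := consistent P0 L0 (Real.sqrt 68) 10 y0

theorem mem_K0 (f : EuclideanSpace ℝ (Fin 2)) :
    f ∈ K0 ↔ f 0 ^ 2 + 4 * f 1 ^ 2 ≤ 68 ∧ 0 ≤ 2 * f 0 - f 1 ∧ 2 * f 0 - f 1 ≤ 20 := by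
  have h1 : ‖P0 f‖ ≤ Real.sqrt 68 ↔ f 0 ^ 2 + 4 * f 1 ^ 2 ≤ 68 := by
    rw [← P0_sq, Real.le_sqrt (norm_nonneg _) (by norm_num)]
  have h2 : ‖y0 - L0 f‖ ≤ 10 ↔ 0 ≤ 2 * f 0 - f 1 ∧ 2 * f 0 - f 1 ≤ 20 := by
    rw [← sq_le_sq₀ (norm_nonneg _) (by norm_num), L0_sq]
    constructor
    · intro h
      have := abs_le_of_sq_le_sq' h (by norm_num)
      constructor <;> linarith [this.1, this.2]
    · rintro ⟨ha, hb⟩
      nlinarith
  exact and_congr h1 h2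

/-- the point `A` -/
noncomputable def A : EuclideanSpace ℝ (Fin 2) := !₂[-2, -4]
/-- the point `B` -/
noncomputable def B : EuclideanSpace ℝ (Fin 2) := !₂[8, 1]
/-- the center -/
noncomputable def z0 : EuclideanSpace ℝ (Fin 2) := !₂[3, -3 / 2]

theorem A_mem : A ∈ K0 := by
  rw [mem_K0]
  simp [A]
  norm_num

theorem B_mem : B ∈ K0 := by
  rw [mem_K0]
  simp [B]
  norm_num

theorem sub_ball (f : EuclideanSpace ℝ (Fin 2)) (hf : f ∈ K0) : ‖f - z0‖ ^ 2 ≤ 125 / 4 := by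
  rw [mem_K0] at hf
  obtain ⟨h1, h2, -⟩ := hf
  rw [dist_sq]
  have e0 : z0 0 = 3 := by simp [z0]
  have e1 : z0 1 = -3 / 2 := by simp [z0]
  rw [e0, e1]
  have h3 : 8 * f 0 + 4 * f 1 ≤ 68 := by nlinarith [sq_nonneg (f 0 - 8), sq_nonneg (f 1 - 1)]
  nlinarith [mul_nonneg (sub_nonneg.2 h3) h2]

theorem bdd (z : EuclideanSpace ℝ (Fin 2)) : BddAbove ((fun f => ‖f - z‖) '' K0) := by
  refine ⟨Real.sqrt (125 / 4) + ‖z0 - z‖, ?_⟩
  rintro _ ⟨f, hf, rfl⟩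
  have h1 : ‖f - z0‖ ≤ Real.sqrt (125 / 4) := Real.le_sqrt_of_sq_le (sub_ball f hf)
  calc ‖f - z‖ = ‖(f - z0) + (z0 - z)‖ := by congr 1; abel
    _ ≤ ‖f - z0‖ + ‖z0 - z‖ := norm_add_le _ _
    _ ≤ _ := by linarith

theorem radius_z0 : radius K0 z0 ≤ Real.sqrt (125 / 4) := by
  refine csSup_le ⟨_, ⟨A, A_mem, rfl⟩⟩ ?_
  rintro _ ⟨f, hf, rfl⟩
  exact Real.le_sqrt_of_sq_le (sub_ball f hf)

/-- the radius at any point is at least that of `z0`, with equality at `z0` only -/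
theorem radius_sq (z : EuclideanSpace ℝ (Fin 2)) :
    125 / 4 + ‖z - z0‖ ^ 2 ≤ radius K0 z ^ 2 := by
  have hA : ‖A - z‖ ≤ radius K0 z := le_csSup (bdd z) ⟨A, A_mem, rfl⟩
  have hB : ‖B - z‖ ≤ radius K0 z := le_csSup (bdd z) ⟨B, B_mem, rfl⟩
  have h1 : ‖A - z‖ ^ 2 ≤ radius K0 z ^ 2 := pow_le_pow_left₀ (norm_nonneg _) hA 2
  have h2 : ‖B - z‖ ^ 2 ≤ radius K0 z ^ 2 := pow_le_pow_left₀ (norm_nonneg _) hB 2
  rw [dist_sq] at h1 h2 ⊢
  have a0 : A 0 = -2 := by simp [A]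
  have a1 : A 1 = -4 := by simp [A]
  have b0 : B 0 = 8 := by simp [B]
  have b1 : B 1 = 1 := by simp [B]
  have e0 : z0 0 = 3 := by simp [z0]
  have e1 : z0 1 = -3 / 2 := by simp [z0]
  rw [a0, a1] at h1
  rw [b0, b1] at h2
  rw [e0, e1]
  linarith

theorem radius_nonneg (z : EuclideanSpace ℝ (Fin 2)) : 0 ≤ radius K0 z :=
  (norm_nonneg _).trans (le_csSup (bdd z) ⟨A, A_mem, rfl⟩)

theorem center : IsChebyshevCenter K0 z0 := by
  intro z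
  refine radius_z0.trans (Real.sqrt_le_iff.2 ⟨radius_nonneg z, ?_⟩)
  have := radius_sq z
  nlinarith [sq_nonneg ‖z - z0‖]

theorem unique (z : EuclideanSpace ℝ (Fin 2)) (h : IsChebyshevCenter K0 z) : z = z0 := by
  have h1 := radius_sq z
  have h2 : radius K0 z ≤ Real.sqrt (125 / 4) := (h z0).trans radius_z0
  have h3 : radius K0 z ^ 2 ≤ 125 / 4 := by
    have := pow_le_pow_left₀ (radius_nonneg z) h2 2
    rwa [Real.sq_sqrt (by norm_num)] at this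
  have h4 : ‖z - z0‖ ^ 2 ≤ 0 := by linarith
  have h5 : ‖z - z0‖ = 0 := by
    have := sq_nonneg ‖z - z0‖
    exact pow_eq_zero_iff (two_ne_zero) |>.1 (le_antisymm h4 this)
  exact sub_eq_zero.1 (norm_eq_zero.1 h5)

/-- There are linear maps `P : ℝ² → ℝ²`, `Λ : ℝ² → ℝ` with `ker P ∩ ker Λ = 0`, positive numbers
`ε, η` and a datum `y` for which the set of the consistent elements has exactly one Chebyshev center
`z`, and `z` minimises `F_τ` for no `τ ∈ [0, 1]`. -/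
theorem result : ∃ (P : EuclideanSpace ℝ (Fin 2) →ₗ[ℝ] EuclideanSpace ℝ (Fin 2))
    (Λ : EuclideanSpace ℝ (Fin 2) →ₗ[ℝ] EuclideanSpace ℝ (Fin 1)) (ε η : ℝ)
    (y : EuclideanSpace ℝ (Fin 1)),
    0 < ε ∧ 0 < η ∧ LinearMap.ker P ⊓ LinearMap.ker Λ = ⊥ ∧ (consistent P Λ ε η y).Nonempty ∧
    ∃ z, IsChebyshevCenter (consistent P Λ ε η y) z ∧
      (∀ z', IsChebyshevCenter (consistent P Λ ε η y) z' → z' = z) ∧
      ∀ τ : ℝ, 0 ≤ τ → τ ≤ 1 → ∃ f, F P Λ y τ f < F P Λ y τ z := by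
  refine ⟨P0, L0, Real.sqrt 68, 10, y0, Real.sqrt_pos.2 (by norm_num), by norm_num, ?_,
    ⟨A, A_mem⟩, z0, center, unique, ?_⟩
  · rw [eq_bot_iff]
    intro f hf
    have hf1 : P0 f = 0 := hf.1
    have h1 := P0_sq f
    rw [hf1, norm_zero] at h1
    have h2 : f 0 ^ 2 = 0 := by nlinarith [sq_nonneg (f 0), sq_nonneg (f 1)]
    have h3 : f 1 ^ 2 = 0 := by nlinarith [sq_nonneg (f 0), sq_nonneg (f 1)]
    rw [Submodule.mem_bot]
    ext i
    fin_cases i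
    · simpa using pow_eq_zero_iff (two_ne_zero) |>.1 h2
    · simpa using pow_eq_zero_iff (two_ne_zero) |>.1 h3
  · intro τ h0 h1
    refine ⟨!₂[4, -1 / 2], ?_⟩
    unfold F
    rw [P0_sq, P0_sq, L0_sq, L0_sq]
    have e0 : z0 0 = 3 := by simp [z0]
    have e1 : z0 1 = -3 / 2 := by simp [z0]
    rw [e0, e1]
    have e2 : (!₂[4, -1 / 2] : EuclideanSpace ℝ (Fin 2)) 0 = 4 := by simp
    have e3 : (!₂[4, -1 / 2] : EuclideanSpace ℝ (Fin 2)) 1 = -1 / 2 := by simp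
    rw [e2, e3]
    nlinarith

end Pool.Agent.Results.MP_ef9ba3_an.CenterNoRegularizer
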